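import Mathlib
import Pool.Agent.T6.H7.PF.Defs

set_option autoImplicit false

/-! Module R2 of project PF: vectors modulo `p` orthogonal to independent integer vectors. -/

namespace Pool.Agent.T6.H29.PF

open Pool.Agent.T6.H7.PF
open scoped BigOperators Matrix

variable {n k : ℕ}

lemma inner_toE (x y : Fin n → ℤ) :
    inner ℝ (toE x) (toE y) = ((∑ j, x j * y j : ℤ) : ℝ) := by
  simp [toE, PiLp.inner_apply, mul_comm]

lemma gram_det_ne_zero (x : Fin k → Fin n → ℤ)
    (hx : LinearIndependent ℝ (fun i => toE (x i))) :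
    (Matrix.of (fun i j => ∑ l, x i l * x j l) : Matrix (Fin k) (Fin k) ℤ).det ≠ 0 := by
  intro h0
  have h1 : ((Matrix.of (fun i j => ∑ l, x i l * x j l) : Matrix (Fin k) (Fin k) ℤ).map
      (Int.cast : ℤ → ℝ)).det = 0 := by
    have := Int.cast_det (R := ℝ)
      (Matrix.of (fun i j => ∑ l, x i l * x j l) : Matrix (Fin k) (Fin k) ℤ)
    rw [← this, h0]; simp
  obtain ⟨c, hc0, hc⟩ := Matrix.exists_vecMul_eq_zero_iff.mpr h1
  apply hc0
  have h2 : ∑ i, c i • toE (x i) = 0 := by
    rw [← inner_self_eq_zero (𝕜 := ℝ)]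
    rw [sum_inner]
    have : ∀ i, inner ℝ (c i • toE (x i)) (∑ j, c j • toE (x j)) =
        c i * ∑ j, c j * ((∑ l, x i l * x j l : ℤ) : ℝ) := by
      intro i
      rw [inner_smul_left, inner_sum]
      simp only [inner_smul_right, inner_toE]
      simp
    rw [Finset.sum_congr rfl (fun i _ => this i)]
    simp_rw [Finset.mul_sum]
    rw [Finset.sum_comm]
    apply Finset.sum_eq_zero
    intro j _
    have hj := congrFun hc j
    simp only [Matrix.vecMul, dotProduct, Matrix.map_apply, Matrix.of_apply, Pi.zero_apply] at hj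
    calc ∑ i, c i * (c j * ((∑ l, x i l * x j l : ℤ) : ℝ))
        = c j * ∑ i, c i * ((∑ l, x i l * x j l : ℤ) : ℝ) := by
          rw [Finset.mul_sum]; apply Finset.sum_congr rfl; intro i _; ring
      _ = 0 := by rw [hj, mul_zero]
  exact funext (fun i => (Fintype.linearIndependent_iff.mp hx) c h2 i)

theorem r2 : StmtR2 := by
  intro n k p _ x ρ hx hρ hp
  classical
  set G : Matrix (Fin k) (Fin k) ℤ := Matrix.of (fun i j => ∑ l, x i l * x j l) with hG
  have hdet0 : G.det ≠ 0 := gram_det_ne_zero x hx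
  have hentry : ∀ i j, |((G i j : ℤ) : ℝ)| ≤ ρ ^ 2 := by
    intro i j
    have h1 : ((G i j : ℤ) : ℝ) = inner ℝ (toE (x i)) (toE (x j)) := by
      rw [inner_toE]; rfl
    rw [h1]
    calc |inner ℝ (toE (x i)) (toE (x j))| ≤ ‖toE (x i)‖ * ‖toE (x j)‖ := abs_real_inner_le_norm _ _
      _ ≤ ρ * ρ := by
          apply mul_le_mul (hρ i) (hρ j) (norm_nonneg _)
          exact (norm_nonneg _).trans (hρ i)
      _ = ρ ^ 2 := by ring
  have hbound : |((G.det : ℤ) : ℝ)| ≤ (k.factorial : ℝ) * (ρ ^ 2) ^ k := by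
    have h1 := Matrix.det_le (A := G.map (Int.cast : ℤ → ℝ)) (abv := AbsoluteValue.abs)
      (x := ρ ^ 2) (by intro i j; simpa using hentry i j)
    have h2 := Int.cast_det (R := ℝ) G
    simpa [← h2] using h1
  have hlt : |G.det| < (p : ℤ) := by
    have : (|G.det| : ℝ) < (p : ℝ) := lt_of_le_of_lt hbound hp
    exact_mod_cast this
  have hdetp : (G.map (Int.cast : ℤ → ZMod p)).det ≠ 0 := by
    rw [← Int.cast_det (R := ZMod p) G]
    intro h
    rw [ZMod.intCast_zmod_eq_zero_iff_dvd] at h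
    exact hdet0 (Int.eq_zero_of_abs_lt_dvd h hlt)
  set X : Matrix (Fin k) (Fin n) (ZMod p) := Matrix.of (fun i j => (x i j : ZMod p)) with hX
  have hXX : X * Xᵀ = G.map (Int.cast : ℤ → ZMod p) := by
    ext i j
    simp [hX, hG, Matrix.mul_apply]
  have hunit : IsUnit (X * Xᵀ).det := by
    rw [hXX]; exact isUnit_iff_ne_zero.mpr hdetp
  set Y : Matrix (Fin n) (Fin k) (ZMod p) := Xᵀ * (X * Xᵀ)⁻¹ with hY
  have hXY : X * Y = 1 := by
    rw [hY, ← Matrix.mul_assoc, Matrix.mul_nonsing_inv _ hunit]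
  set S : Finset (Fin n → ZMod p) :=
    Finset.univ.filter (fun a => ∀ i, ∑ j, a j * (x i j : ZMod p) = 0) with hS
  have hncard : {a : Fin n → ZMod p | ∀ i, ∑ j, a j * (x i j : ZMod p) = 0}.ncard = S.card := by
    rw [← Set.ncard_coe_finset]; congr 1; ext a; simp [hS]
  rw [hncard]
  have hcard : (S ×ˢ (Finset.univ : Finset (Fin k → ZMod p))).card ≤
      (Finset.univ : Finset (Fin n → ZMod p)).card := by
    apply Finset.card_le_card_of_injOn (fun q => q.1 + Y *ᵥ q.2)
    · intro q _; simp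
    · rintro ⟨a, b⟩ hab ⟨a', b'⟩ hab' heq
      simp only [Finset.coe_product, Set.mem_prod, Finset.mem_coe, hS, Finset.mem_filter,
        Finset.mem_univ, true_and, Finset.coe_univ, Set.mem_univ, and_true] at hab hab'
      have ha : X *ᵥ a = 0 := by
        ext i; simp only [Matrix.mulVec, dotProduct, hX, Matrix.of_apply, Pi.zero_apply]
        rw [← hab i]; exact Finset.sum_congr rfl (fun j _ => mul_comm _ _)
      have ha' : X *ᵥ a' = 0 := by
        ext i; simp only [Matrix.mulVec, dotProduct, hX, Matrix.of_apply, Pi.zero_apply]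
        rw [← hab' i]; exact Finset.sum_congr rfl (fun j _ => mul_comm _ _)
      have h1 := congrArg (fun v => X *ᵥ v) heq
      simp only [Matrix.mulVec_add, ha, ha', Matrix.mulVec_mulVec, hXY, Matrix.one_mulVec,
        zero_add] at h1
      subst h1
      simpa using heq
  simpa [Finset.card_product, ZMod.card] using hcard

end Pool.Agent.T6.H29.PF
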